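import Pool.Agent.Helper70.QA.Fun

/-!
# Project AUT (S00834), block A: the decoder for representations of the quiver
-/

set_option autoImplicit false

namespace QT60

open QA70 Helper10.QA

/-- the idempotent operators -/
theorem op_e0 (A : QRep) (x : A.tot) : A.op (.e 0) x = A.in0 (A.pr0 x) := rfl
theorem op_e1 (A : QRep) (x : A.tot) : A.op (.e 1) x = A.in1 (A.pr1 x) := rfl
theorem op_e2 (A : QRep) (x : A.tot) : A.op (.e 2) x = A.in2 (A.pr2 x) := rfl
theorem op_e3 (A : QRep) (x : A.tot) : A.op (.e 3) x = A.in3 (A.pr3 x) := rfl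
theorem op_e4 (A : QRep) (x : A.tot) : A.op (.e 4) x = A.in4 (A.pr4 x) := rfl
theorem op_b (A : QRep) (l : Fin 3) (x : A.tot) : A.op (.b l) x = A.in2 (A.b l (A.pr1 x)) := rfl
theorem op_r (A : QRep) (x : A.tot) : A.op .r x = A.in2 (A.r (A.pr4 x)) := rfl
theorem op_lam (A : QRep) (x : A.tot) : A.op .lam x = A.in0 (A.lam (A.pr1 x)) := rfl
theorem op_a (A : QRep) (i : Fin dd) (j : Fin 2) (x : A.tot) :
    A.op (.a i j) x = A.in3 (A.a i j (A.pr1 x)) := rfl
theorem op_c (A : QRep) (i : Fin dd) (j : Fin 2) (x : A.tot) :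
    A.op (.c i j) x = A.in3 (A.c i j (A.pr2 x)) := rfl
theorem op_u (A : QRep) (i : Fin dd) (x : A.tot) :
    A.op (.u i) x = A.in3 (A.u i (A.pr4 x)) := rfl

variable {A B : QRep}

/-- the decoder: a map of the powers commuting with `dec 1`, `dec 2` is `diag` of a homomorphism
(for representations with `al = 0`) -/
theorem decodeQ (hA : A.al = 0) (hB : B.al = 0) (φ : A.P →ₗ[k] B.P)
    (h1 : ∀ x, φ (A.dec 1 x) = B.dec 1 (φ x)) (h2 : ∀ x, φ (A.dec 2 x) = B.dec 2 (φ x)) :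
    ∃ f : QHom A B, φ = f.diag := by
  obtain ⟨φ0, hd, hs⟩ := decode (fun i => A.op (opEquiv i)) (fun i => B.op (opEquiv i)) φ h1 h2
  have hop : ∀ (o : Op) (u : A.tot), φ0 (A.op o u) = B.op o (φ0 u) := by
    intro o u
    have := hs (opEquiv.symm o) u
    simpa using this
  let f : QHom A B :=
    { f0 := B.pr0 ∘ₗ φ0 ∘ₗ A.in0
      f1 := B.pr1 ∘ₗ φ0 ∘ₗ A.in1
      f2 := B.pr2 ∘ₗ φ0 ∘ₗ A.in2
      f3 := B.pr3 ∘ₗ φ0 ∘ₗ A.in3
      f4 := B.pr4 ∘ₗ φ0 ∘ₗ A.in4
      hb := fun l x => congrArg B.pr2 (hop (.b l) (A.in1 x))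
      hr := fun x => congrArg B.pr2 (hop .r (A.in4 x))
      hlam := fun x => congrArg B.pr0 (hop .lam (A.in1 x))
      hal := fun x => by
        rw [hA, hB]
        exact map_zero _
      ha := fun i j x => congrArg B.pr3 (hop (.a i j) (A.in1 x))
      hc := fun i j x => congrArg B.pr3 (hop (.c i j) (A.in2 x))
      hu := fun i x => congrArg B.pr3 (hop (.u i) (A.in4 x)) }
  have hf : φ0 = f.tot := by
    have e0 : ∀ x, φ0 (A.in0 x) = B.in0 (f.f0 x) := fun x => by
      have h := hop (.e 0) (A.in0 x)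
      exact h
    have e1 : ∀ x, φ0 (A.in1 x) = B.in1 (f.f1 x) := fun x => hop (.e 1) (A.in1 x)
    have e2 : ∀ x, φ0 (A.in2 x) = B.in2 (f.f2 x) := fun x => hop (.e 2) (A.in2 x)
    have e3 : ∀ x, φ0 (A.in3 x) = B.in3 (f.f3 x) := fun x => hop (.e 3) (A.in3 x)
    have e4 : ∀ x, φ0 (A.in4 x) = B.in4 (f.f4 x) := fun x => hop (.e 4) (A.in4 x)
    ext x
    rw [← A.sum_in x]
    simp only [map_add, e0, e1, e2, e3, e4]
    obtain ⟨x0, x1, x2, x3, x4, rfl⟩ := A.tmk_cases x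
    simp
  refine ⟨f, ?_⟩
  ext x
  apply FM.pow_ext
  intro i
  rw [QHom.proj_diag, ← hf]
  exact hd x i

/-- `diag` is injective -/
theorem tot_injective : Function.Injective (QHom.tot : QHom A B → (A.tot →ₗ[k] B.tot)) := by
  intro f g h
  have h' : ∀ x, f.tot x = g.tot x := fun x => by rw [h]
  ext x
  · exact congrArg B.pr0 (h' (A.in0 x))
  · exact congrArg B.pr1 (h' (A.in1 x))
  · exact congrArg B.pr2 (h' (A.in2 x))
  · exact congrArg B.pr3 (h' (A.in3 x))
  · exact congrArg B.pr4 (h' (A.in4 x))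

theorem diag_single (f : QHom A B) (i : QRep.NC) (x : A.tot) :
    f.diag (FM.single i x) = FM.single i (f.tot x) := FM.pmap_single _ _ _

theorem diag_inj {f g : QHom A B} (h : f.diag = g.diag) : f = g := by
  apply tot_injective
  ext x
  have h1 : f.diag (FM.single (0 : QRep.NC) x) = g.diag (FM.single (0 : QRep.NC) x) := by rw [h]
  rw [diag_single, diag_single] at h1
  exact FM.single_inj h1

end QT60
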